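import Mathlib

/-!
Combinatorial part of the construction for MP_f6153b_al: two filters on `ℕ` which are orthogonal
for leading positions of sums of indicator vectors of increasing sequences of finite sets.
-/

namespace Pool.Agent.Lib.MP_f6153b_al

/-- The vector space `(ℤ/2)^ℕ`. -/
abbrev V : Type := ℕ → ZMod 2

/-- `p` is the leading (least) position of the vector `u`. -/
def Lead (u : V) (p : ℕ) : Prop := u p ≠ 0 ∧ ∀ i < p, u i = 0

/-- The set of leading positions of nonzero elements of a subspace. -/
def Leads (S : Submodule (ZMod 2) V) : Set ℕ := {p | ∃ u ∈ S, Lead u p}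

lemma lead_of_ne_zero {u : V} (hu : u ≠ 0) : ∃ p, Lead u p := by
  classical
  have hex : ∃ p, u p ≠ 0 := by
    by_contra hcon
    push Not at hcon
    exact hu (funext hcon)
  exact ⟨Nat.find hex, Nat.find_spec hex, fun i hi => by
    by_contra h
    exact Nat.find_min hex hi h⟩

lemma Lead.unique {u : V} {p q : ℕ} (hp : Lead u p) (hq : Lead u q) : p = q := by
  rcases lt_trichotomy p q with h | h | h
  · exact absurd (hq.2 p h) hp.1
  · exact h
  · exact absurd (hp.2 q h) hq.1

lemma Lead.add {u w : V} {p : ℕ} (hp : Lead u p) (hw : ∀ i ≤ p, w i = 0) : Lead (u + w) p := by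
  refine ⟨?_, fun i hi => ?_⟩
  · rw [Pi.add_apply, hw p le_rfl, add_zero]; exact hp.1
  · rw [Pi.add_apply, hw i hi.le, add_zero]; exact hp.2 i hi

lemma Lead.ne_zero {u : V} {p : ℕ} (hp : Lead u p) : u ≠ 0 := by
  rintro rfl
  exact hp.1 rfl

lemma zmod2_cases (a : ZMod 2) : a = 0 ∨ a = 1 := by
  revert a; decide

/-- A span of `n` vectors has at most `n` leading positions. -/
lemma leads_span_finset (s : Finset V) :
    (Leads (Submodule.span (ZMod 2) (s : Set V))).encard ≤ s.card := by
  classical
  induction s using Finset.induction_on with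
  | empty =>
    have : Leads (Submodule.span (ZMod 2) ((∅ : Finset V) : Set V)) = ∅ := by
      rw [Set.eq_empty_iff_forall_notMem]
      rintro p ⟨u, hu, hp⟩
      simp only [Finset.coe_empty, Submodule.span_empty, Submodule.mem_bot] at hu
      exact hp.ne_zero hu
    rw [this]; simp
  | insert v s hv ih =>
    rw [Finset.card_insert_of_notMem hv, Finset.coe_insert]
    set S := Submodule.span (ZMod 2) (s : Set V) with hS
    have hcase : ∀ u ∈ Submodule.span (ZMod 2) (insert v (s : Set V)), u ∈ S ∨ u + v ∈ S := by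
      intro u hu
      rw [Submodule.mem_span_insert] at hu
      obtain ⟨a, z, hz, rfl⟩ := hu
      rcases zmod2_cases a with rfl | rfl
      · left; simpa using hz
      · right
        have : (1 : ZMod 2) • v + z + v = z := by
          have h2 : v + v = 0 := by
            rw [← two_smul (ZMod 2) v]
            have : (2 : ZMod 2) = 0 := by decide
            rw [this, zero_smul]
          rw [one_smul, add_assoc, add_comm z v, ← add_assoc, h2, zero_add]
        rw [this]; exact hz
    have hsub : (Leads (Submodule.span (ZMod 2) (insert v (s : Set V))) \ Leads S).Subsingleton := by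
      have key : ∀ p q : ℕ, p < q → p ∈ Leads (Submodule.span (ZMod 2) (insert v (s : Set V))) →
          q ∈ Leads (Submodule.span (ZMod 2) (insert v (s : Set V))) → q ∉ Leads S →
          p ∈ Leads S := by
        rintro p q hpq ⟨u, hu, hup⟩ ⟨u', hu', hup'⟩ hq
        rcases hcase u hu with h1 | h1
        · exact ⟨u, h1, hup⟩
        rcases hcase u' hu' with h2 | h2
        · exact absurd ⟨u', h2, hup'⟩ hq
        refine ⟨u + u', ?_, hup.add fun i hi => hup'.2 i (lt_of_le_of_lt hi hpq)⟩
        have h3 := S.add_mem h1 h2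
        have : u + v + (u' + v) = u + u' := by
          have h2 : v + v = 0 := by
            rw [← two_smul (ZMod 2) v]
            have : (2 : ZMod 2) = 0 := by decide
            rw [this, zero_smul]
          rw [add_add_add_comm, h2, add_zero]
        rwa [this] at h3
      rintro p ⟨hp, hp'⟩ q ⟨hq, hq'⟩
      rcases lt_trichotomy p q with h | h | h
      · exact absurd (key p q h hp hq hq') hp'
      · exact h
      · exact absurd (key q p h hq hp hp') hq'
    calc (Leads (Submodule.span (ZMod 2) (insert v (s : Set V)))).encard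
        ≤ (Leads S ∪ (Leads (Submodule.span (ZMod 2) (insert v (s : Set V))) \ Leads S)).encard :=
          Set.encard_le_encard (by intro x hx; by_cases h : x ∈ Leads S; exact Or.inl h;
                                   exact Or.inr ⟨hx, h⟩)
      _ ≤ (Leads S).encard +
          (Leads (Submodule.span (ZMod 2) (insert v (s : Set V))) \ Leads S).encard :=
          Set.encard_union_le _ _
      _ ≤ s.card + 1 := add_le_add ih (Set.encard_le_one_iff_subsingleton.2 hsub)
      _ = ((s.card + 1 : ℕ) : ℕ∞) := by push_cast; rfl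

/-! ### the tower of forbidden positions -/

/-- Span of the vectors in `s` vanishing on `T`. -/
def keep (s : Finset V) (T : Set ℕ) : Submodule (ZMod 2) V :=
  Submodule.span (ZMod 2) {v | v ∈ s ∧ ∀ i ∈ T, v i = 0}

lemma keep_vanish {s : Finset V} {T : Set ℕ} {u : V} (hu : u ∈ keep s T) {i : ℕ} (hi : i ∈ T) :
    u i = 0 := by
  induction hu using Submodule.span_induction with
  | mem x hx => exact hx.2 i hi
  | zero => rfl
  | add x y _ _ hx hy => rw [Pi.add_apply, hx, hy, add_zero]
  | smul a x _ hx => rw [Pi.smul_apply, hx, smul_zero]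

lemma leads_keep (s : Finset V) (T : Set ℕ) : (Leads (keep s T)).encard ≤ s.card := by
  classical
  have h1 := leads_span_finset (s.filter fun v => ∀ i ∈ T, v i = 0)
  have h2 : keep s T =
      Submodule.span (ZMod 2) ((s.filter fun v => ∀ i ∈ T, v i = 0 : Finset V) : Set V) := by
    unfold keep
    congr 1
    ext v; simp
  rw [h2]
  refine h1.trans ?_
  exact_mod_cast Finset.card_filter_le _ _

/-- The forbidden positions before class `k`. -/
def TT (s : ℕ → Finset V) : ℕ → Set ℕ
  | 0 => ∅
  | k + 1 => TT s k ∪ Leads (keep (s k) (TT s k))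

lemma TT_mono (s : ℕ → Finset V) : Monotone (TT s) :=
  monotone_nat_of_le_succ fun k => by rw [TT]; exact Set.subset_union_left

lemma leads_sub_TT (s : ℕ → Finset V) {j k : ℕ} (h : j < k) :
    Leads (keep (s j) (TT s j)) ⊆ TT s k := by
  refine subset_trans ?_ (TT_mono s (Nat.succ_le_of_lt h))
  rw [TT]; exact Set.subset_union_right

lemma leads_not_TT (s : ℕ → Finset V) {k p : ℕ} (h : p ∈ Leads (keep (s k) (TT s k))) :
    p ∉ TT s k := by
  obtain ⟨u, hu, hp⟩ := h
  intro hmem
  exact hp.1 (keep_vanish hu hmem)

lemma leads_disjoint (s : ℕ → Finset V) {j k p : ℕ} (hjk : j ≠ k)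
    (hj : p ∈ Leads (keep (s j) (TT s j))) (hk : p ∈ Leads (keep (s k) (TT s k))) : False := by
  rcases lt_or_gt_of_ne hjk with h | h
  · exact leads_not_TT s hk (leads_sub_TT s h hj)
  · exact leads_not_TT s hj (leads_sub_TT s h hk)

/-- Sum of the kept spaces over the classes `k < K` satisfying `P`. -/
def QQ (s : ℕ → Finset V) (P : ℕ → Prop) (K : ℕ) : Submodule (ZMod 2) V :=
  ⨆ k ∈ {k | k < K ∧ P k}, keep (s k) (TT s k)

lemma QQ_succ (s : ℕ → Finset V) (P : ℕ → Prop) (K : ℕ) :
    QQ s P (K + 1) ≤ QQ s P K ⊔ (⨆ _ : P K, keep (s K) (TT s K)) := by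
  unfold QQ
  refine iSup₂_le fun k hk => ?_
  rcases Nat.lt_succ_iff_lt_or_eq.1 hk.1 with h | h
  · exact le_sup_of_le_left (le_iSup₂_of_le k ⟨h, hk.2⟩ le_rfl)
  · subst h
    exact le_sup_of_le_right (le_iSup_of_le hk.2 le_rfl)

lemma lead_QQ (s : ℕ → Finset V) (P : ℕ → Prop) (K : ℕ) :
    ∀ u ∈ QQ s P K, ∀ p, Lead u p → ∃ k < K, P k ∧ p ∈ Leads (keep (s k) (TT s k)) := by
  induction K with
  | zero =>
    intro u hu p hp
    have : QQ s P 0 = ⊥ := by
      unfold QQ
      simp
    rw [this, Submodule.mem_bot] at hu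
    exact absurd hu hp.ne_zero
  | succ K ih =>
    intro u hu p hp
    have hu' := QQ_succ s P K hu
    rw [Submodule.mem_sup] at hu'
    obtain ⟨y, hy, z, hz, rfl⟩ := hu'
    by_cases hPK : P K
    · simp only [hPK, iSup_pos] at hz
      by_cases hz0 : z = 0
      · subst hz0
        rw [add_zero] at hp
        obtain ⟨k, hk, h⟩ := ih y hy p hp
        exact ⟨k, by omega, h⟩
      by_cases hy0 : y = 0
      · subst hy0
        rw [zero_add] at hp
        exact ⟨K, by omega, hPK, z, hz, hp⟩
      obtain ⟨q, hq⟩ := lead_of_ne_zero hz0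
      obtain ⟨r, hr⟩ := lead_of_ne_zero hy0
      obtain ⟨k, hk, hPk, hrk⟩ := ih y hy r hr
      have hrT : r ∈ TT s K := leads_sub_TT s hk hrk
      have hqr : q ≠ r := by
        rintro rfl
        exact hq.1 (keep_vanish hz hrT)
      rcases lt_or_gt_of_ne hqr with h | h
      · -- leading position `q`
        have h1 : Lead (z + y) q := hq.add fun i hi => hr.2 i (lt_of_le_of_lt hi h)
        rw [add_comm] at h1
        have := h1.unique hp
        subst this
        exact ⟨K, by omega, hPK, z, hz, hq⟩
      · have h1 : Lead (y + z) r := hr.add fun i hi => hq.2 i (lt_of_le_of_lt hi h)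
        have := h1.unique hp
        subst this
        exact ⟨k, by omega, hPk, hrk⟩
    · simp only [hPK, iSup_neg, Submodule.mem_bot, not_false_eq_true] at hz
      subst hz
      rw [add_zero] at hp
      obtain ⟨k, hk, h⟩ := ih y hy p hp
      exact ⟨k, by omega, h⟩

end Pool.Agent.Lib.MP_f6153b_al
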