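import Mathlib
import Pool.Agent.Lib.MP_f6153b_al.Orth

/-!
The two filters, and their orthogonality.
-/

namespace Pool.Agent.Lib.MP_f6153b_al

/-- Sequences of nonempty finite sets of natural numbers, each lying entirely to the left of the
next one. -/
def IncSeq : Type :=
  {E : ℕ → Finset ℕ // (∀ m, (E m).Nonempty) ∧ ∀ m, ∀ i ∈ E m, ∀ j ∈ E (m + 1), i < j}

lemma IncSeq.lt {E : IncSeq} {m n : ℕ} (h : m < n) : ∀ i ∈ E.1 m, ∀ j ∈ E.1 n, i < j := by
  induction n, h using Nat.le_induction with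
  | base => exact E.2.2 m
  | succ n hn ih =>
    intro i hi j hj
    obtain ⟨l, hl⟩ := E.2.1 n
    exact (ih i hi l hl).trans (E.2.2 n l hl j hj)

lemma IncSeq.disj {E : IncSeq} {m n i : ℕ} (hm : i ∈ E.1 m) (hn : i ∈ E.1 n) : m = n := by
  rcases lt_trichotomy m n with h | h | h
  · exact absurd (IncSeq.lt h i hm i hn) (lt_irrefl i)
  · exact h
  · exact absurd (IncSeq.lt h i hn i hm) (lt_irrefl i)

/-- Indicator vector of a finite set. -/
def ind (s : Finset ℕ) : V := fun i => if i ∈ s then 1 else 0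

/-- Bound for the number of vectors in classes before class `k`. -/
def tau : ℕ → ℕ
  | 0 => 0
  | k + 1 => tau k + (k + 1) * ((k + 1) * (tau k + 1))

/-- Size of the blocks of class `k`. -/
def sz (k : ℕ) : ℕ := (k + 1) * (tau k + 1)

lemma tau_succ (k : ℕ) : tau (k + 1) = tau k + (k + 1) * sz k := rfl

/-- Left end of the `n`-th block of type `p`. -/
def st (p n : ℕ) : ℕ := ∑ i ∈ Finset.range n, sz (2 * i + p)

/-- The `n`-th block of type `p`. -/
def blk (p n : ℕ) : Finset ℕ := Finset.Ico (st p n) (st p (n + 1))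

lemma st_succ (p n : ℕ) : st p (n + 1) = st p n + sz (2 * n + p) := by
  unfold st; rw [Finset.sum_range_succ]

lemma card_blk (p n : ℕ) : (blk p n).card = sz (2 * n + p) := by
  rw [blk, Nat.card_Ico, st_succ]; omega

lemma sz_pos (k : ℕ) : 0 < sz k := by unfold sz; positivity

lemma le_st (p n : ℕ) : n ≤ st p n := by
  induction n with
  | zero => exact Nat.zero_le _
  | succ n ih =>
    rw [st_succ]
    have := sz_pos (2 * n + p)
    omega

/-- The filter of type `p`: sets missing few elements of each large block of type `p`. -/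
def RR (p : ℕ) : Filter ℕ where
  sets := {R | ∃ K : ℕ, ∀ n ≥ K, ((blk p n : Set ℕ) \ R).encard ≤ ((K * tau (2 * n + p) : ℕ) : ℕ∞)}
  univ_sets := ⟨0, fun n _ => by simp⟩
  sets_of_superset := by
    rintro R R' ⟨K, hK⟩ hRR'
    refine ⟨K, fun n hn => (Set.encard_le_encard ?_).trans (hK n hn)⟩
    exact Set.sdiff_subset_sdiff_right hRR'
  inter_sets := by
    rintro R R' ⟨K, hK⟩ ⟨K', hK'⟩
    refine ⟨K + K', fun n hn => ?_⟩
    have h1 := hK n (by omega)
    have h2 := hK' n (by omega)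
    rw [Set.sdiff_inter]
    refine (Set.encard_union_le _ _).trans ?_
    rw [add_mul]
    push_cast at h1 h2 ⊢
    exact add_le_add h1 h2

lemma mem_RR (p : ℕ) (R : Set ℕ) : R ∈ RR p ↔
    ∃ K : ℕ, ∀ n ≥ K, ((blk p n : Set ℕ) \ R).encard ≤ ((K * tau (2 * n + p) : ℕ) : ℕ∞) := Iff.rfl

lemma RR_infinite (p : ℕ) {R : Set ℕ} (hR : R ∈ RR p) : R.Infinite := by
  obtain ⟨K, hK⟩ := (mem_RR p R).1 hR
  rw [Set.infinite_iff_exists_gt]
  intro N
  set n := max K (N + 1) with hn
  have h1 := hK n (le_max_left _ _)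
  have h3 : ∃ m ∈ blk p n, m ∈ R := by
    by_contra hcon
    push Not at hcon
    have h4 : ((blk p n : Set ℕ) \ R) = (blk p n : Set ℕ) := by
      ext m
      simp only [Set.mem_sdiff, Finset.mem_coe, and_iff_left_iff_imp]
      exact hcon m
    rw [h4, Set.encard_coe_eq_coe_finsetCard, card_blk] at h1
    have h5 : sz (2 * n + p) ≤ K * tau (2 * n + p) := by exact_mod_cast h1
    unfold sz at h5
    have hKn : K ≤ 2 * n + p + 1 := by
      have := le_max_left K (N + 1)
      omega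
    have h6 : K * tau (2 * n + p) < (2 * n + p + 1) * (tau (2 * n + p) + 1) :=
      calc K * tau (2 * n + p) ≤ (2 * n + p + 1) * tau (2 * n + p) := Nat.mul_le_mul_right _ hKn
        _ < (2 * n + p + 1) * (tau (2 * n + p) + 1) := by
          apply Nat.mul_lt_mul_of_pos_left (Nat.lt_succ_self _); omega
    omega
  obtain ⟨m, hm, hmR⟩ := h3
  refine ⟨m, hmR, ?_⟩
  rw [blk, Finset.mem_Ico] at hm
  have h4 := le_st p n
  have h5 := le_max_right K (N + 1)
  omega

/-- Span of the indicator vectors of the sets `E m`, `E ∈ A`, `m ∈ φ E`. -/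
def spn (φ : IncSeq → Set ℕ) (A : Set IncSeq) : Submodule (ZMod 2) V :=
  Submodule.span (ZMod 2) {d | ∃ E ∈ A, ∃ m ∈ φ E, d = ind (E.1 m)}

lemma spn_mono {φ ψ : IncSeq → Set ℕ} {A B : Set IncSeq} (h : ∀ E, φ E ⊆ ψ E) (hAB : A ⊆ B) :
    spn φ A ≤ spn ψ B := by
  apply Submodule.span_mono
  rintro d ⟨E, hE, m, hm, rfl⟩
  exact ⟨E, hAB hE, m, h E hm, rfl⟩

section tower

variable (a b : ℕ → IncSeq)

/-- The vectors of class `k`: for even `k = 2n` the vectors given by `a 0, ..., a k` and the `n`-th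
block of type `0`, for odd `k = 2n+1` those given by `b 0, ..., b k` and the `n`-th block of
type `1`. -/
noncomputable def vec (k : ℕ) : Finset V :=
  letI := Classical.decEq V
  ((Finset.range (k + 1)) ×ˢ blk (k % 2) (k / 2)).image
    (fun q => ind ((if k % 2 = 0 then a q.1 else b q.1).1 q.2))

lemma card_vec (k : ℕ) : (vec a b k).card ≤ (k + 1) * sz k := by
  classical
  unfold vec
  refine Finset.card_image_le.trans ?_
  rw [Finset.card_product, Finset.card_range, card_blk, Nat.div_add_mod]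

lemma encard_TT (k : ℕ) : (TT (vec a b) k).encard ≤ tau k := by
  induction k with
  | zero => simp [TT]
  | succ k ih =>
    rw [TT, tau_succ]
    refine (Set.encard_union_le _ _).trans ?_
    push_cast
    refine add_le_add ih ?_
    refine (leads_keep _ _).trans ?_
    exact_mod_cast card_vec a b k

/-- For every increasing sequence `E` the set of indices `m` in blocks of type `p` (from the `j`-th
one on) such that `E m` avoids the forbidden positions belongs to the filter of type `p`. -/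
lemma good_mem (p j : ℕ) (E : IncSeq) :
    {m | ∃ n ≥ j, m ∈ blk p n ∧ ∀ i ∈ TT (vec a b) (2 * n + p), ind (E.1 m) i = 0} ∈ RR p := by
  classical
  rw [mem_RR]
  refine ⟨max j 1, fun n hn => ?_⟩
  have hjn : j ≤ n := (le_max_left _ _).trans hn
  have hT := encard_TT a b (2 * n + p)
  -- each bad index meets the forbidden set
  have hbad : ∀ m ∈ ((blk p n : Set ℕ) \ {m | ∃ n ≥ j, m ∈ blk p n ∧
      ∀ i ∈ TT (vec a b) (2 * n + p), ind (E.1 m) i = 0}),
      ∃ i ∈ TT (vec a b) (2 * n + p), i ∈ E.1 m := by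
    intro m hm
    by_contra hcon
    push Not at hcon
    apply hm.2
    refine ⟨n, hjn, hm.1, fun i hi => ?_⟩
    unfold ind
    rw [if_neg (hcon i hi)]
  choose! g hg hg' using hbad
  have h1 := Set.encard_le_encard_of_injOn (f := g) (t := TT (vec a b) (2 * n + p)) hg
    (fun m hm m' hm' hmm => IncSeq.disj (hg' m hm) (hmm ▸ hg' m' hm'))
  refine h1.trans (hT.trans ?_)
  have h2 : 1 * tau (2 * n + p) ≤ max j 1 * tau (2 * n + p) :=
    Nat.mul_le_mul_right _ (le_max_right _ _)
  rw [one_mul] at h2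
  exact_mod_cast h2

end tower

/-- **Orthogonality.** -/
theorem orthogonal (A B : Set IncSeq) (hA : A.Countable) (hB : B.Countable) :
    ∃ φ ψ : IncSeq → Set ℕ, (∀ E, φ E ∈ RR 0) ∧ (∀ E, ψ E ∈ RR 1) ∧
      ∀ u ∈ spn φ A, ∀ w ∈ spn ψ B, ∀ p, Lead u p → Lead w p → False := by
  classical
  have hne : Nonempty IncSeq := ⟨⟨fun m => {m}, fun m => by simp, fun m i hi j hj => by
    simp only [Finset.mem_singleton] at hi hj; omega⟩⟩
  obtain ⟨E0⟩ := hne
  obtain ⟨a, ha⟩ := (hA.insert E0).exists_eq_range (Set.insert_nonempty _ _)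
  obtain ⟨b, hb⟩ := (hB.insert E0).exists_eq_range (Set.insert_nonempty _ _)
  have hA' : ∀ E ∈ A, ∃ j, a j = E := fun E hE => by
    have : E ∈ Set.range a := ha ▸ Set.mem_insert_of_mem _ hE
    exact this
  have hB' : ∀ E ∈ B, ∃ j, b j = E := fun E hE => by
    have : E ∈ Set.range b := hb ▸ Set.mem_insert_of_mem _ hE
    exact this
  choose! ja hja using hA'
  choose! jb hjb using hB'
  refine ⟨fun E => {m | ∃ n ≥ ja E, m ∈ blk 0 n ∧
      ∀ i ∈ TT (vec a b) (2 * n + 0), ind (E.1 m) i = 0},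
    fun E => {m | ∃ n ≥ jb E, m ∈ blk 1 n ∧
      ∀ i ∈ TT (vec a b) (2 * n + 1), ind (E.1 m) i = 0},
    fun E => good_mem a b 0 _ E, fun E => good_mem a b 1 _ E, ?_⟩
  -- inclusion into the union of the `QQ`
  have hmono : ∀ P : ℕ → Prop, Monotone (QQ (vec a b) P) := by
    intro P K K' h
    unfold QQ
    refine iSup₂_le fun k hk => ?_
    exact le_iSup₂_of_le k ⟨lt_of_lt_of_le hk.1 h, hk.2⟩ le_rfl
  have hinA : ∀ u ∈ spn (fun E => {m | ∃ n ≥ ja E, m ∈ blk 0 n ∧
      ∀ i ∈ TT (vec a b) (2 * n + 0), ind (E.1 m) i = 0}) A,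
      ∃ K, u ∈ QQ (vec a b) (fun k => k % 2 = 0) K := by
    intro u hu
    induction hu using Submodule.span_induction with
    | mem x hx =>
      obtain ⟨E, hE, m, ⟨n, hn, hm, hT⟩, rfl⟩ := hx
      refine ⟨2 * n + 0 + 1, ?_⟩
      refine (Submodule.mem_iSup_of_mem (2 * n + 0)
        (Submodule.mem_iSup_of_mem ⟨Nat.lt_succ_self _, by simp⟩ ?_))
      apply Submodule.subset_span
      refine ⟨?_, hT⟩
      unfold vec
      rw [Finset.mem_image]
      refine ⟨(ja E, m), ?_, ?_⟩
      · rw [Finset.mem_product]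
        refine ⟨Finset.mem_range.2 (by simp only; omega), ?_⟩
        have h1 : (2 * n + 0) % 2 = 0 := by omega
        have h2 : (2 * n + 0) / 2 = n := by omega
        rw [h1, h2]; exact hm
      · rw [if_pos (by omega), hja E hE]
    | zero => exact ⟨0, Submodule.zero_mem _⟩
    | add x y _ _ hx hy =>
      obtain ⟨K, hK⟩ := hx
      obtain ⟨K', hK'⟩ := hy
      exact ⟨max K K', Submodule.add_mem _ (hmono _ (le_max_left _ _) hK)
        (hmono _ (le_max_right _ _) hK')⟩
    | smul c x _ hx =>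
      obtain ⟨K, hK⟩ := hx
      exact ⟨K, Submodule.smul_mem _ _ hK⟩
  have hinB : ∀ u ∈ spn (fun E => {m | ∃ n ≥ jb E, m ∈ blk 1 n ∧
      ∀ i ∈ TT (vec a b) (2 * n + 1), ind (E.1 m) i = 0}) B,
      ∃ K, u ∈ QQ (vec a b) (fun k => k % 2 = 1) K := by
    intro u hu
    induction hu using Submodule.span_induction with
    | mem x hx =>
      obtain ⟨E, hE, m, ⟨n, hn, hm, hT⟩, rfl⟩ := hx
      refine ⟨2 * n + 1 + 1, ?_⟩
      refine (Submodule.mem_iSup_of_mem (2 * n + 1)
        (Submodule.mem_iSup_of_mem ⟨Nat.lt_succ_self _, by omega⟩ ?_))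
      apply Submodule.subset_span
      refine ⟨?_, hT⟩
      unfold vec
      rw [Finset.mem_image]
      refine ⟨(jb E, m), ?_, ?_⟩
      · rw [Finset.mem_product]
        refine ⟨Finset.mem_range.2 (by simp only; omega), ?_⟩
        have h1 : (2 * n + 1) % 2 = 1 := by omega
        have h2 : (2 * n + 1) / 2 = n := by omega
        rw [h1, h2]; exact hm
      · rw [if_neg (by omega), hjb E hE]
    | zero => exact ⟨0, Submodule.zero_mem _⟩
    | add x y _ _ hx hy =>
      obtain ⟨K, hK⟩ := hx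
      obtain ⟨K', hK'⟩ := hy
      exact ⟨max K K', Submodule.add_mem _ (hmono _ (le_max_left _ _) hK)
        (hmono _ (le_max_right _ _) hK')⟩
    | smul c x _ hx =>
      obtain ⟨K, hK⟩ := hx
      exact ⟨K, Submodule.smul_mem _ _ hK⟩
  intro u hu w hw p hup hwp
  obtain ⟨K, hK⟩ := hinA u hu
  obtain ⟨K', hK'⟩ := hinB w hw
  obtain ⟨k, -, hk, hkp⟩ := lead_QQ _ _ K u hK p hup
  obtain ⟨k', -, hk', hkp'⟩ := lead_QQ _ _ K' w hK' p hwp
  refine leads_disjoint (vec a b) ?_ hkp hkp'
  rintro rfl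
  omega

end Pool.Agent.Lib.MP_f6153b_al
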