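import Mathlib
import Pool.Agent.Lib.MP_f6153b_al.Filters

/-!
The groups for MP_f6153b_al: the free abelian group on the countable sets of increasing sequences,
ordered by the cone `Pos`, and topologies defined by directed families of submonoids.
-/

namespace Pool.Agent.Lib.MP_f6153b_al

/-! ### topologies defined by families of submonoids -/

section cone

variable {X : Type*} [AddCommGroup X] {ι : Type*} [Nonempty ι] (W : ι → AddSubmonoid X)
  (hdir : ∀ i j, ∃ k, W k ≤ W i ∧ W k ≤ W j)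

/-- The topology with neighbourhoods `x + W i` of `x`. -/
@[reducible] def coneTop : TopologicalSpace X where
  IsOpen U := ∀ x ∈ U, ∃ i, ∀ w ∈ W i, x + w ∈ U
  isOpen_univ := fun _ _ => ⟨Classical.arbitrary ι, fun _ _ => trivial⟩
  isOpen_inter := by
    rintro s t hs ht x ⟨hxs, hxt⟩
    obtain ⟨i, hi⟩ := hs x hxs
    obtain ⟨j, hj⟩ := ht x hxt
    obtain ⟨k, hki, hkj⟩ := hdir i j
    exact ⟨k, fun w hw => ⟨hi w (hki hw), hj w (hkj hw)⟩⟩
  isOpen_sUnion := by
    rintro s hs x ⟨t, ht, hxt⟩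
    obtain ⟨i, hi⟩ := hs t ht x hxt
    exact ⟨i, fun w hw => ⟨t, ht, hi w hw⟩⟩

lemma coneTop_isOpen_iff (U : Set X) :
    @IsOpen X (coneTop W hdir) U ↔ ∀ x ∈ U, ∃ i, ∀ w ∈ W i, x + w ∈ U := Iff.rfl

lemma coneTop_isOpen_translate (x : X) (i : ι) :
    @IsOpen X (coneTop W hdir) {y | ∃ w ∈ W i, y = x + w} := by
  rw [coneTop_isOpen_iff]
  rintro y ⟨w, hw, rfl⟩
  exact ⟨i, fun w' hw' => ⟨w + w', (W i).add_mem hw hw', by rw [add_assoc]⟩⟩

lemma coneTop_continuousAdd : @ContinuousAdd X (coneTop W hdir) _ := by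
  let _ := coneTop W hdir
  refine ⟨?_⟩
  rw [continuous_def]
  intro U hU
  rw [isOpen_prod_iff]
  intro a b hab
  obtain ⟨i, hi⟩ := (coneTop_isOpen_iff W hdir U).1 hU _ hab
  refine ⟨_, _, coneTop_isOpen_translate W hdir a i, coneTop_isOpen_translate W hdir b i,
    ⟨0, (W i).zero_mem, by simp⟩, ⟨0, (W i).zero_mem, by simp⟩, ?_⟩
  rintro ⟨_, _⟩ ⟨⟨w, hw, rfl⟩, ⟨w', hw', rfl⟩⟩
  have := hi (w + w') ((W i).add_mem hw hw')
  simp only [Set.mem_preimage]
  rwa [add_add_add_comm]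

lemma coneTop_mem_closure (S : Set X) (x : X) :
    x ∈ @closure X (coneTop W hdir) S ↔ ∀ i, ∃ w ∈ W i, x + w ∈ S := by
  let _ := coneTop W hdir
  rw [mem_closure_iff]
  constructor
  · intro h i
    obtain ⟨y, ⟨w, hw, rfl⟩, hy⟩ := h _ (coneTop_isOpen_translate W hdir x i)
      ⟨0, (W i).zero_mem, by simp⟩
    exact ⟨w, hw, hy⟩
  · intro h o ho hxo
    obtain ⟨i, hi⟩ := (coneTop_isOpen_iff W hdir o).1 ho x hxo
    obtain ⟨w, hw, hS⟩ := h i
    exact ⟨x + w, hi w hw, hS⟩

end cone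

/-! ### the ordered group -/

/-- Countable sets of increasing sequences, ordered by inclusion. -/
abbrev CS : Type := {A : Set IncSeq // A.Countable}

/-- The cone of the ordered group: every maximal element of the support has a positive
coefficient. -/
def Pos (f : CS →₀ ℤ) : Prop := ∀ A, f A < 0 → ∃ B, A < B ∧ 0 < f B

/-- The union of the support. -/
def top (f : CS →₀ ℤ) : Set IncSeq := ⋃ A ∈ f.support, A.1

lemma top_countable (f : CS →₀ ℤ) : (top f).Countable :=
  f.support.countable_toSet.biUnion fun A _ => A.2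

lemma mem_top {f : CS →₀ ℤ} {E : IncSeq} : E ∈ top f ↔ ∃ A ∈ f.support, E ∈ A.1 := by
  simp [top]

lemma exists_pos_above {f g : CS →₀ ℤ} (hf : Pos f) (hg : Pos g) {S : CS}
    (hS : S ∈ f.support ∪ g.support) : ∃ B, S ≤ B ∧ 0 < (f + g) B := by
  classical
  obtain ⟨B, hSB, hB⟩ := (f.support ∪ g.support).exists_le_maximal hS
  refine ⟨B, hSB, ?_⟩
  have hf0 : 0 ≤ f B := by
    by_contra hcon
    obtain ⟨B', hBB', h⟩ := hf B (not_le.1 hcon)
    have : B' ∈ f.support ∪ g.support :=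
      Finset.mem_union_left _ (Finsupp.mem_support_iff.2 h.ne')
    exact absurd (hB.2 this hBB'.le) (not_le_of_gt hBB')
  have hg0 : 0 ≤ g B := by
    by_contra hcon
    obtain ⟨B', hBB', h⟩ := hg B (not_le.1 hcon)
    have : B' ∈ f.support ∪ g.support :=
      Finset.mem_union_right _ (Finsupp.mem_support_iff.2 h.ne')
    exact absurd (hB.2 this hBB'.le) (not_le_of_gt hBB')
  have hne : f B ≠ 0 ∨ g B ≠ 0 := by
    rcases Finset.mem_union.1 hB.1 with h | h
    · exact Or.inl (Finsupp.mem_support_iff.1 h)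
    · exact Or.inr (Finsupp.mem_support_iff.1 h)
  rw [Finsupp.add_apply]
  omega

lemma Pos.zero : Pos 0 := by
  intro A hA
  simp at hA

lemma Pos.add {f g : CS →₀ ℤ} (hf : Pos f) (hg : Pos g) : Pos (f + g) := by
  classical
  intro A hA
  have hmem : A ∈ f.support ∪ g.support := by
    rw [Finset.mem_union, Finsupp.mem_support_iff, Finsupp.mem_support_iff]
    rw [Finsupp.add_apply] at hA
    omega
  obtain ⟨B, hAB, hB⟩ := exists_pos_above hf hg hmem
  refine ⟨B, lt_of_le_of_ne hAB ?_, hB⟩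
  rintro rfl
  omega

lemma top_add {f g : CS →₀ ℤ} (hf : Pos f) (hg : Pos g) : top (f + g) = top f ∪ top g := by
  classical
  ext E
  constructor
  · intro hE
    obtain ⟨A, hA, hEA⟩ := mem_top.1 hE
    have := Finsupp.support_add hA
    rcases Finset.mem_union.1 this with h | h
    · exact Or.inl (mem_top.2 ⟨A, h, hEA⟩)
    · exact Or.inr (mem_top.2 ⟨A, h, hEA⟩)
  · intro hE
    have : ∃ A ∈ f.support ∪ g.support, E ∈ A.1 := by
      rcases hE with h | h
      · obtain ⟨A, hA, hEA⟩ := mem_top.1 h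
        exact ⟨A, Finset.mem_union_left _ hA, hEA⟩
      · obtain ⟨A, hA, hEA⟩ := mem_top.1 h
        exact ⟨A, Finset.mem_union_right _ hA, hEA⟩
    obtain ⟨A, hA, hEA⟩ := this
    obtain ⟨B, hAB, hB⟩ := exists_pos_above hf hg hA
    exact mem_top.2 ⟨B, Finsupp.mem_support_iff.2 hB.ne', hAB hEA⟩

lemma eq_zero_of_pos_neg {f : CS →₀ ℤ} (hf : Pos f) (hg : Pos (-f)) : f = 0 := by
  classical
  by_contra hne
  obtain ⟨S, hS⟩ := Finsupp.support_nonempty_iff.2 hne
  obtain ⟨B, -, hB⟩ := f.support.exists_le_maximal hS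
  have h0 : f B ≠ 0 := Finsupp.mem_support_iff.1 hB.1
  rcases lt_or_gt_of_ne h0 with h | h
  · obtain ⟨B', hBB', h'⟩ := hf B h
    exact absurd (hB.2 (Finsupp.mem_support_iff.2 h'.ne') hBB'.le) (not_le_of_gt hBB')
  · obtain ⟨B', hBB', h'⟩ := hg B (by rw [Finsupp.neg_apply]; omega)
    rw [Finsupp.neg_apply] at h'
    exact absurd (hB.2 (Finsupp.mem_support_iff.2 (by omega)) hBB'.le) (not_le_of_gt hBB')

/-- Diagonalisation: the increasing sequences are uncountable. -/
lemma exists_not_mem (A : Set IncSeq) (hA : A.Countable) : ∃ E : IncSeq, E ∉ A := by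
  classical
  by_contra hcon
  push Not at hcon
  have hne : Nonempty IncSeq := ⟨⟨fun m => {m}, fun m => by simp, fun m i hi j hj => by
    simp only [Finset.mem_singleton] at hi hj; omega⟩⟩
  obtain ⟨E0⟩ := hne
  obtain ⟨a, ha⟩ := hA.exists_eq_range ⟨E0, hcon E0⟩
  let s : ℕ → ℕ := fun m => 2 * m + (if 2 * m ∈ (a m).1 m then 1 else 0)
  have hs : ∀ m, s m < s (m + 1) := by
    intro m
    simp only [s]
    split_ifs <;> omega
  let E : IncSeq := ⟨fun m => {s m}, fun m => by simp, fun m i hi j hj => by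
    simp only [Finset.mem_singleton] at hi hj
    rw [hi, hj]; exact hs m⟩
  have hE : E ∈ Set.range a := ha ▸ hcon E
  obtain ⟨m, hm⟩ := hE
  by_cases h : 2 * m ∈ (a m).1 m
  · have h1 : 2 * m ∈ E.1 m := hm ▸ h
    have h2 : s m = 2 * m + 1 := by simp only [s, if_pos h]
    simp only [E, Finset.mem_singleton, h2] at h1
    omega
  · have h2 : s m = 2 * m := by simp only [s, if_neg h, add_zero]
    apply h
    rw [hm]
    simp only [E, Finset.mem_singleton, h2]

/-- Countable families have upper bounds, with large tops. -/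
lemma exists_upper (f : ℕ → (CS →₀ ℤ)) (B : ℕ → CS) :
    ∃ g : CS →₀ ℤ, ∀ k, Pos (g - f k) ∧ (B k).1 ⊆ top (g - f k) := by
  classical
  have hC : (⋃ k, (top (f k) ∪ (B k).1)).Countable :=
    Set.countable_iUnion fun k => (top_countable (f k)).union (B k).2
  obtain ⟨E, hE⟩ := exists_not_mem _ hC
  let S : CS := ⟨insert E (⋃ k, (top (f k) ∪ (B k).1)), hC.insert E⟩
  have hlt : ∀ k, ∀ T ∈ (f k).support, T < S := by
    intro k T hT
    have hsub : T.1 ⊆ ⋃ k, (top (f k) ∪ (B k).1) := by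
      intro x hx
      exact Set.mem_iUnion.2 ⟨k, Or.inl (mem_top.2 ⟨T, hT, hx⟩)⟩
    refine lt_of_le_of_ne (fun x hx => Or.inr (hsub hx)) ?_
    rintro rfl
    exact hE (hsub (Or.inl rfl))
  have hS0 : ∀ k, f k S = 0 := by
    intro k
    by_contra hne
    exact lt_irrefl S (hlt k S (Finsupp.mem_support_iff.2 hne))
  have hS1 : ∀ k, (Finsupp.single S (1 : ℤ) - f k) S = 1 := by
    intro k
    rw [Finsupp.sub_apply, hS0 k, Finsupp.single_eq_same, sub_zero]
  refine ⟨Finsupp.single S 1, fun k => ⟨?_, ?_⟩⟩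
  · intro T hT
    have hTS : T ≠ S := by
      rintro rfl
      rw [hS1 k] at hT
      omega
    rw [Finsupp.sub_apply, Finsupp.single_eq_of_ne hTS] at hT
    refine ⟨S, hlt k T (Finsupp.mem_support_iff.2 (by omega)), ?_⟩
    rw [hS1 k]; exact one_pos
  · intro x hx
    refine mem_top.2 ⟨S, Finsupp.mem_support_iff.2 ?_, ?_⟩
    · rw [hS1 k]; exact one_ne_zero
    · exact Or.inr (Set.mem_iUnion.2 ⟨k, Or.inr hx⟩)

lemma pos_single (S : CS) : Pos (Finsupp.single S 1) := by
  classical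
  intro T hT
  rw [Finsupp.single_apply] at hT
  split_ifs at hT <;> omega

lemma mem_top_single {S : CS} {E : IncSeq} (h : E ∈ S.1) : E ∈ top (Finsupp.single S 1) := by
  classical
  refine mem_top.2 ⟨S, ?_, h⟩
  rw [Finsupp.mem_support_iff, Finsupp.single_eq_same]
  exact one_ne_zero

end Pool.Agent.Lib.MP_f6153b_al
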