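import Mathlib
import Pool.Agent.Lib.MP_f6153b_al.Cone

/-!
The group attached to a filter on `ℕ`, and the proof that it is 2-pseudocompact (in additive
notation).
-/

namespace Pool.Agent.Lib.MP_f6153b_al

/-- The underlying group. -/
abbrev X0 : Type := (CS →₀ ℤ) × V

/-- Indices of the basic neighbourhoods of zero. -/
structure Idx (R : Filter ℕ) where
  phi : IncSeq → Set ℕ
  hphi : ∀ E, phi E ∈ R
  B : CS
  n : ℕ

instance (R : Filter ℕ) : Nonempty (Idx R) :=
  ⟨⟨fun _ => Set.univ, fun _ => Filter.univ_mem, ⟨∅, Set.countable_empty⟩, 0⟩⟩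

/-- Basic neighbourhoods of zero. -/
def WW {R : Filter ℕ} (i : Idx R) : AddSubmonoid X0 where
  carrier := {x | Pos x.1 ∧ (∀ j < i.n, x.2 j = 0) ∧ (i.B.1 ⊆ top x.1 ∨ x.2 ∈ spn i.phi (top x.1))}
  zero_mem' := ⟨Pos.zero, fun _ _ => rfl, Or.inr (Submodule.zero_mem _)⟩
  add_mem' := by
    rintro x y ⟨hx1, hx2, hx3⟩ ⟨hy1, hy2, hy3⟩
    refine ⟨hx1.add hy1, fun j hj => ?_, ?_⟩
    · rw [Prod.snd_add, Pi.add_apply, hx2 j hj, hy2 j hj, add_zero]
    · rw [Prod.fst_add, Prod.snd_add, top_add hx1 hy1]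
      rcases hx3 with hx3 | hx3
      · exact Or.inl (hx3.trans Set.subset_union_left)
      rcases hy3 with hy3 | hy3
      · exact Or.inl (hy3.trans Set.subset_union_right)
      · right
        exact Submodule.add_mem _ (spn_mono (fun _ => subset_rfl) Set.subset_union_left hx3)
          (spn_mono (fun _ => subset_rfl) Set.subset_union_right hy3)

lemma mem_WW {R : Filter ℕ} {i : Idx R} {x : X0} : x ∈ WW i ↔
    Pos x.1 ∧ (∀ j < i.n, x.2 j = 0) ∧ (i.B.1 ⊆ top x.1 ∨ x.2 ∈ spn i.phi (top x.1)) := Iff.rfl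

lemma WW_dir (R : Filter ℕ) (i j : Idx R) : ∃ k : Idx R, WW k ≤ WW i ∧ WW k ≤ WW j := by
  refine ⟨⟨fun E => i.phi E ∩ j.phi E, fun E => Filter.inter_mem (i.hphi E) (j.hphi E),
    ⟨i.B.1 ∪ j.B.1, i.B.2.union j.B.2⟩, max i.n j.n⟩, ?_, ?_⟩
  · rintro x ⟨h1, h2, h3⟩
    refine ⟨h1, fun l hl => h2 l (lt_max_of_lt_left hl), ?_⟩
    rcases h3 with h3 | h3
    · exact Or.inl (Set.subset_union_left.trans h3)
    · exact Or.inr (spn_mono (fun _ => Set.inter_subset_left) subset_rfl h3)
  · rintro x ⟨h1, h2, h3⟩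
    refine ⟨h1, fun l hl => h2 l (lt_max_of_lt_right hl), ?_⟩
    rcases h3 with h3 | h3
    · exact Or.inl (Set.subset_union_right.trans h3)
    · exact Or.inr (spn_mono (fun _ => Set.inter_subset_right) subset_rfl h3)

/-- The topology attached to the filter `R`. -/
@[reducible] noncomputable def tR (R : Filter ℕ) : TopologicalSpace X0 := coneTop (fun i : Idx R => WW i) (WW_dir R)

/-- Sequential compactness of `V`, by hand. -/
lemma exists_subseq (c : ℕ → V) : ∃ (a : V) (κ : ℕ → ℕ), StrictMono κ ∧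
    ∀ N : ℕ, ∃ J : ℕ, ∀ j ≥ J, ∀ i < N, a i = c (κ j) i := by
  let t : TopologicalSpace (ZMod 2) := ⊥
  have hd : DiscreteTopology (ZMod 2) := ⟨rfl⟩
  obtain ⟨a, κ, hκ, hlim⟩ := CompactSpace.tendsto_subseq c
  refine ⟨a, κ, hκ, fun N => ?_⟩
  rw [tendsto_pi_nhds] at hlim
  have h1 : ∀ i, ∀ᶠ j in Filter.atTop, a i = c (κ j) i := by
    intro i
    have h2 := hlim i
    rw [nhds_discrete, Filter.tendsto_pure] at h2
    filter_upwards [h2] with j hj
    exact hj.symm
  have h3 : ∀ᶠ j in Filter.atTop, ∀ i ∈ Finset.range N, a i = c (κ j) i := by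
    rw [Filter.eventually_all_finset]
    exact fun i _ => h1 i
  obtain ⟨J, hJ⟩ := Filter.eventually_atTop.1 h3
  exact ⟨J, fun j hj i hi => hJ j hj i (Finset.mem_range.2 hi)⟩

/-- Truncation: the support of `u` below `n`. -/
def trunc (u : V) (n : ℕ) : Finset ℕ := (Finset.range n).filter (fun i => u i ≠ 0)

lemma mem_trunc {u : V} {n i : ℕ} : i ∈ trunc u n ↔ i < n ∧ u i ≠ 0 := by
  simp [trunc]

lemma sub_ind_trunc (u : V) (n : ℕ) : ∀ i < n, (u - ind (trunc u n)) i = 0 := by
  intro i hi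
  rw [Pi.sub_apply]
  unfold ind
  by_cases h : u i = 0
  · rw [if_neg (fun hmem => (mem_trunc.1 hmem).2 h), h, sub_zero]
  · rw [if_pos (mem_trunc.2 ⟨hi, h⟩)]
    have := (zmod2_cases (u i)).resolve_left h
    rw [this, sub_self]

/-- The group attached to a filter all of whose members are infinite is 2-pseudocompact. -/
theorem two_pc (R : Filter ℕ) (hR : ∀ S ∈ R, S.Infinite) (U : ℕ → Set X0)
    (hopen : ∀ k, @IsOpen X0 (tR R) (U k)) (hne : ∀ k, (U k).Nonempty) (hanti : Antitone U) :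
    ∃ z : X0, ∀ k, z ∈ @closure X0 (tR R) {y | -y ∈ U k} := by
  classical
  choose x hx using hne
  have hW : ∀ k, ∃ i : Idx R, ∀ w ∈ WW i, x k + w ∈ U k := fun k =>
    (coneTop_isOpen_iff _ _ _).1 (hopen k) _ (hx k)
  choose I hI using hW
  obtain ⟨a, κ, hκ, hlim⟩ := exists_subseq (fun k => (x k).2)
  -- differences
  set u : ℕ → V := fun j => a - (x (κ j)).2 with hu
  have hu0 : ∀ N : ℕ, ∃ J : ℕ, ∀ j ≥ J, ∀ i < N, u j i = 0 := by
    intro N
    obtain ⟨J, hJ⟩ := hlim N
    refine ⟨J, fun j hj i hi => ?_⟩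
    change a i - (x (κ j)).2 i = 0
    rw [hJ j hj i hi, sub_self]
  set F : ℕ → Finset ℕ := fun j => trunc (u j) (I (κ j)).n with hF
  -- a common upper bound
  obtain ⟨g, hg⟩ := exists_upper (fun k => (x k).1) (fun k => (I k).B)
  have hrest : ∀ j, ((g - (x (κ j)).1, u j - ind (F j)) : X0) ∈ WW (I (κ j)) := by
    intro j
    refine ⟨(hg (κ j)).1, sub_ind_trunc _ _, Or.inl (hg (κ j)).2⟩
  by_cases hcase : ∀ J : ℕ, ∃ j ≥ J, F j = ∅
  · -- infinitely many empty truncations
    refine ⟨-(g, a), fun k => ?_⟩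
    rw [coneTop_mem_closure]
    intro i
    refine ⟨0, (WW i).zero_mem, ?_⟩
    obtain ⟨j, hjk, hj⟩ := hcase k
    have h1 := hrest j
    have h2 : ind (F j) = 0 := by
      rw [hj]; funext l; simp [ind]
    rw [h2, sub_zero] at h1
    have h3 := hI (κ j) _ h1
    have h4 : x (κ j) + (g - (x (κ j)).1, u j) = (g, a) := by
      ext1
      · simp
      · simp [hu]
    rw [h4] at h3
    simp only [add_zero, Set.mem_ofPred_eq, neg_neg]
    exact hanti (hjk.trans (hκ.id_le j)) h3
  · push Not at hcase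
    obtain ⟨J0, hJ0⟩ := hcase
    -- choose a subsequence with increasing truncations
    have hstep : ∀ j : ℕ, ∃ j' > j, ∀ i ∈ F j, ∀ l ∈ F j', i < l := by
      intro j
      obtain ⟨J, hJ⟩ := hu0 ((F j).sup id + 1)
      refine ⟨max J (j + 1), by have := le_max_right J (j + 1); omega, ?_⟩
      intro i hi l hl
      have h1 : i ≤ (F j).sup id := Finset.le_sup (f := id) hi
      by_contra hcon
      have h2 := hJ (max J (j + 1)) (le_max_left _ _) l (by omega)
      exact (mem_trunc.1 hl).2 h2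
    choose nx hnx1 hnx2 using hstep
    let s : ℕ → ℕ := fun m => Nat.rec J0 (fun _ j => nx j) m
    have hs0 : s 0 = J0 := rfl
    have hss : ∀ m, s (m + 1) = nx (s m) := fun m => rfl
    have hsmono : StrictMono s := strictMono_nat_of_lt_succ fun m => by rw [hss]; exact hnx1 _
    have hsJ : ∀ m, J0 ≤ s m := fun m => by
      rw [← hs0]; exact hsmono.monotone (Nat.zero_le m)
    let E : IncSeq := ⟨fun m => F (s m), fun m => hJ0 _ (hsJ m),
      fun m i hi j hj => hnx2 (s m) i hi j hj⟩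
    let SE : CS := ⟨{E}, Set.countable_singleton E⟩
    refine ⟨-(g + Finsupp.single SE 1, a), fun k => ?_⟩
    rw [coneTop_mem_closure]
    intro i
    -- choose an index
    obtain ⟨J, hJ⟩ := hu0 i.n
    obtain ⟨m, hmR, hm⟩ := (hR _ (i.hphi E)).exists_gt (max J k)
    have hsm : m ≤ s m := hsmono.id_le m
    have hJm : J ≤ s m := (le_max_left J k).trans (hm.le.trans hsm)
    have hkm : k ≤ s m := (le_max_right J k).trans (hm.le.trans hsm)
    refine ⟨(Finsupp.single SE 1, ind (F (s m))), ⟨pos_single _, ?_, Or.inr ?_⟩, ?_⟩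
    · intro l hl
      have h1 := hJ (s m) hJm l hl
      change ind (F (s m)) l = 0
      unfold ind
      rw [if_neg]
      intro hmem
      exact (mem_trunc.1 hmem).2 h1
    · apply Submodule.subset_span
      exact ⟨E, mem_top_single rfl, m, hmR, rfl⟩
    · have h3 := hI (κ (s m)) _ (hrest (s m))
      have hchar : ∀ v : V, -v = v := by
        intro v
        funext l
        rw [Pi.neg_apply]
        rcases zmod2_cases (v l) with h | h <;> rw [h] <;> decide
      have h4 : -(-(g + Finsupp.single SE 1, a) + ((Finsupp.single SE 1, ind (F (s m))) : X0)) =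
          x (κ (s m)) + (g - (x (κ (s m))).1, u (s m) - ind (F (s m))) := by
        ext1
        · simp only [Prod.neg_mk, Prod.mk_add_mk, Prod.fst_add]
          abel
        · simp only [Prod.neg_mk, Prod.mk_add_mk, Prod.snd_add, hu]
          abel
      simp only [Set.mem_ofPred_eq]
      rw [h4]
      exact hanti (hkm.trans (hκ.id_le (s m))) h3

end Pool.Agent.Lib.MP_f6153b_al
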